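import Pool.Agent.Helper26.Ip.Tools

/-!
# Package ONE: the value at one point and the residual field
-/

set_option autoImplicit false
set_option linter.unusedSectionVars false
open MeasureTheory Filter Topology ProbabilityTheory
open scoped ContDiff ENNReal InnerProductSpace

namespace Pool.Agent.Helper33.Ip

open Pool.Agent.N661.BR (MW J0 IsStationary shift meas_eval meas_shift IsGaussianLaw lin meas_lin)
open Pool.Agent.W745.RW (lap)
open Pool.Agent.Helper37.BC
open Pool.Agent.Helper26.Ip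
open Complex (I)

noncomputable section

variable {μ : Measure MW} [IsProbabilityMeasure μ]

/-- the regression coefficient -/
def cf (μ : Measure MW) (y : ℂ) : ℝ := (∫ g : MW, g 0 * g y ∂μ) / (∫ g : MW, g 0 ^ 2 ∂μ)

/-- O1 -/
theorem one_le (hs : IsStationary μ) (h2 : Integrable (fun f : MW => f 0 ^ 2) μ) :
    Submodule.span ℝ {V hs h2 0} ≤ values μ := by
  rw [Submodule.span_singleton_le_iff_mem]
  exact V_mem hs h2 0

theorem inner_VV (hs : IsStationary μ) (h2 : Integrable (fun f : MW => f 0 ^ 2) μ) (y z : ℂ) :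
    ⟪V hs h2 y, V hs h2 z⟫_ℝ = ∫ f : MW, f y * f z ∂μ := by
  rw [L2.inner_def]
  refine integral_congr_ae ?_
  filter_upwards [V_coe hs h2 y, V_coe hs h2 z] with f h3 h4
  rw [h3, h4]
  show f z * f y = f y * f z
  ring

theorem cf_eq (hs : IsStationary μ) (h2 : Integrable (fun f : MW => f 0 ^ 2) μ) (y : ℂ) :
    cf μ y = ⟪V hs h2 0, V hs h2 y⟫_ℝ / ⟪V hs h2 0, V hs h2 0⟫_ℝ := by
  rw [inner_VV, inner_VV]
  unfold cf
  congr 1
  exact integral_congr_ae (Eventually.of_forall fun f => pow_two _)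

theorem residual_perp (hs : IsStationary μ) (h2 : Integrable (fun f : MW => f 0 ^ 2) μ) (y : ℂ) :
    ⟪V hs h2 0, V hs h2 y - cf μ y • V hs h2 0⟫_ℝ = 0 := by
  rw [inner_sub_right, inner_smul_right, cf_eq hs h2]
  by_cases h : ⟪V hs h2 0, V hs h2 0⟫_ℝ = 0
  · have h0 : V hs h2 0 = 0 := inner_self_eq_zero.1 h
    rw [h0, inner_zero_left, inner_zero_left, mul_zero, sub_zero]
  · rw [div_mul_cancel₀ _ h, sub_self]

/-- O2 -/
theorem one_perp (hs : IsStationary μ) (h2 : Integrable (fun f : MW => f 0 ^ 2) μ) :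
    (Submodule.span ℝ {V hs h2 0})ᗮ ⊓ values μ =
      (Submodule.span ℝ (Set.range fun y => V hs h2 y - cf μ y • V hs h2 0)).topologicalClosure := by
  set R := (Submodule.span ℝ
    (Set.range fun y => V hs h2 y - cf μ y • V hs h2 0)).topologicalClosure with hR
  refine le_antisymm ?_ ?_
  · intro x hx
    obtain ⟨hx1, hx2⟩ := Submodule.mem_inf.1 hx
    have h1 : ∀ g ∈ values μ, g - (⟪V hs h2 0, g⟫_ℝ / ⟪V hs h2 0, V hs h2 0⟫_ℝ) • V hs h2 0 ∈ R := by
      intro g hg
      refine values_induction hs h2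
        (p := fun g => g - (⟪V hs h2 0, g⟫_ℝ / ⟪V hs h2 0, V hs h2 0⟫_ℝ) • V hs h2 0 ∈ R)
        ?_ ?_ ?_ ?_ ?_ hg
      · have hc : Continuous fun g : Lp ℝ 2 μ =>
            g - (⟪V hs h2 0, g⟫_ℝ / ⟪V hs h2 0, V hs h2 0⟫_ℝ) • V hs h2 0 := by fun_prop
        exact (Submodule.isClosed_topologicalClosure _).preimage hc
      · intro y
        rw [← cf_eq hs h2]
        exact Submodule.le_topologicalClosure _ (Submodule.subset_span ⟨y, rfl⟩)
      · rw [inner_zero_right, zero_div, zero_smul, sub_zero]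
        exact Submodule.zero_mem _
      · intro g k hg hk
        have := Submodule.add_mem _ hg hk
        convert this using 1
        rw [inner_add_right, add_div, add_smul]
        abel
      · intro t g hg
        have := Submodule.smul_mem _ t hg
        convert this using 1
        rw [inner_smul_right, smul_sub, smul_smul, mul_div_assoc]
    have h3 : ⟪V hs h2 0, x⟫_ℝ = 0 :=
      hx1 _ (Submodule.mem_span_singleton_self _)
    have h4 := h1 x hx2
    rwa [h3, zero_div, zero_smul, sub_zero] at h4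
  · refine Submodule.topologicalClosure_minimal _ ?_ ?_
    · rw [Submodule.span_le]
      rintro _ ⟨y, rfl⟩
      refine Submodule.mem_inf.2 ⟨?_, ?_⟩
      · rw [Submodule.mem_orthogonal_singleton_iff_inner_right]
        exact residual_perp hs h2 y
      · exact Submodule.sub_mem _ (V_mem hs h2 y) (Submodule.smul_mem _ _ (V_mem hs h2 0))
    · exact (Submodule.isClosed_orthogonal _).inter values_closed

/-- a continuous wave which is constant vanishes -/
theorem wave_const {f : MW} (h : ∀ y, f y = f 0) : f 0 = 0 := by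
  have h1 : (fun y => f y) = fun _ : ℂ => f 0 := funext h
  have h2 := f.2.2 0
  have h3 : lap f.1 0 = 0 := by
    rw [lap_D2 f.2.1]
    have h4 : f.1 = fun _ : ℂ => f 0 := h1
    unfold D2
    rw [h4]
    simp
  have h5 : lap f.1 0 + f 0 = 0 := h2
  linarith

theorem V0_zero (hs : IsStationary μ) (h2 : Integrable (fun f : MW => f 0 ^ 2) μ)
    (h : ∀ x, V hs h2 x = V hs h2 0) : V hs h2 0 = 0 := by
  have h1 : ∀ n : ℕ, ∀ᵐ f ∂μ, (f : MW) (TopologicalSpace.denseSeq ℂ n) = f 0 := by
    intro n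
    have h3 := V_coe hs h2 (TopologicalSpace.denseSeq ℂ n)
    have h4 := V_coe hs h2 0
    rw [h] at h3
    filter_upwards [h3, h4] with f h5 h6
    rw [← h5, ← h6]
  refine Lp.ext ((V_coe hs h2 0).trans ?_)
  refine EventuallyEq.trans ?_ (Lp.coeFn_zero ℝ 2 μ).symm
  filter_upwards [ae_all_iff.2 h1] with f hf
  refine wave_const fun y => ?_
  have hc : Continuous fun y : ℂ => f y := f.2.1.continuous
  have := (TopologicalSpace.denseRange_denseSeq ℂ).equalizer hc
    (continuous_const (y := f 0)) (funext hf)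
  exact congrFun this y

theorem norm_V (hs : IsStationary μ) (h2 : Integrable (fun f : MW => f 0 ^ 2) μ) (x : ℂ) :
    ‖V hs h2 x‖ = ‖V hs h2 0‖ := by
  have := S_V hs h2 x 0
  rw [zero_add] at this
  rw [← this]
  exact (S hs x).norm_map _

theorem cont_VV (hs : IsStationary μ) (h2 : Integrable (fun f : MW => f 0 ^ 2) μ)
    (g : Lp ℝ 2 μ) : Continuous fun y => ⟪V hs h2 y, g⟫_ℝ := by
  have h1 := UU_cont hs h2 (Lp.memLp g)
  refine h1.congr fun y => ?_
  rw [L2.inner_def]
  unfold UU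
  refine integral_congr_ae ?_
  filter_upwards [V_coe hs h2 y] with f h3
  rw [h3]
  show f y * g f = g f * f y
  ring

/-- O3 -/
theorem one_noA (hs : IsStationary μ) (h2 : Integrable (fun f : MW => f 0 ^ 2) μ) :
    NoInvariant (Submodule.span ℝ {V hs h2 0}) := by
  intro a ha hinv
  obtain ⟨t, rfl⟩ := Submodule.mem_span_singleton.1 ha
  by_cases ht : t = 0
  · rw [ht, zero_smul]
  by_cases hV : V hs h2 0 = 0
  · rw [hV, smul_zero]
  exfalso
  have hn : 0 < ‖V hs h2 0‖ := norm_pos_iff.2 hV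
  have h1 : ∀ x, ∃ s : ℝ, V hs h2 x = s • V hs h2 0 := by
    intro x
    obtain ⟨b, hb, hb2⟩ := hinv x
    have h3 := eq_S hs hb2
    rw [map_smul, S_V, zero_add] at h3
    obtain ⟨s, hs'⟩ := Submodule.mem_span_singleton.1 hb
    refine ⟨t⁻¹ * s, ?_⟩
    rw [mul_smul, hs', h3, smul_smul, inv_mul_cancel₀ ht, one_smul]
  choose s hsx using h1
  have h3 : ∀ x, |s x| = 1 := by
    intro x
    have h4 := norm_V hs h2 x
    rw [hsx x, norm_smul, Real.norm_eq_abs] at h4
    exact mul_right_cancel₀ hn.ne' (h4.trans (one_mul _).symm)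
  have h4 : ∀ x, s x = ⟪V hs h2 x, V hs h2 0⟫_ℝ / ‖V hs h2 0‖ ^ 2 := by
    intro x
    rw [hsx x, real_inner_smul_left, real_inner_self_eq_norm_sq]
    field_simp
  have hcont : Continuous s := by
    rw [funext h4]
    exact (cont_VV hs h2 _).div_const _
  have h5 : s 0 = 1 := by
    rw [h4, real_inner_self_eq_norm_sq]
    field_simp
  have h6 : ∀ x, s x = 1 := by
    intro x
    by_contra hne
    have h7 : s x = -1 := by
      rcases abs_eq (zero_le_one (α := ℝ)) |>.1 (h3 x) with h | h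
      · exact (hne h).elim
      · exact h
    obtain ⟨y, hy⟩ := mem_range_of_exists_le_of_exists_ge hcont
      ⟨x, (by rw [h7]; norm_num : s x ≤ 0)⟩ ⟨0, (by rw [h5]; norm_num : 0 ≤ s 0)⟩
    have := h3 y
    rw [hy] at this
    norm_num at this
  exact hV (V0_zero hs h2 fun x => by rw [hsx x, h6 x, one_smul])

theorem eq_zero_of_perp (hs : IsStationary μ) (h2 : Integrable (fun f : MW => f 0 ^ 2) μ)
    {b : Lp ℝ 2 μ} (hb : b ∈ values μ) (h : ∀ y, ⟪b, V hs h2 y⟫_ℝ = 0) : b = 0 := by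
  have h1 : ∀ g ∈ values μ, ⟪b, g⟫_ℝ = 0 := by
    intro g hg
    refine values_induction hs h2 (p := fun g => ⟪b, g⟫_ℝ = 0) ?_ h ?_ ?_ ?_ hg
    · exact isClosed_eq (by fun_prop) continuous_const
    · exact inner_zero_right _
    · intro g k hg hk
      rw [inner_add_right, hg, hk, add_zero]
    · intro t g hg
      rw [inner_smul_right, hg, mul_zero]
  exact inner_self_eq_zero.1 (h1 b hb)

theorem inner_S (hs : IsStationary μ) (h2 : Integrable (fun f : MW => f 0 ^ 2) μ) (x y : ℂ)
    (b : Lp ℝ 2 μ) : ⟪S hs x b, V hs h2 y⟫_ℝ = ⟪b, V hs h2 (y - x)⟫_ℝ := by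
  have h1 : V hs h2 y = S hs x (V hs h2 (y - x)) := by
    rw [S_V, sub_add_cancel]
  rw [h1, LinearIsometry.inner_map_map]

/-- O4 -/
theorem one_noB (hs : IsStationary μ) (h2 : Integrable (fun f : MW => f 0 ^ 2) μ) :
    NoInvariant ((Submodule.span ℝ {V hs h2 0})ᗮ ⊓ values μ) := by
  intro b hb hinv
  obtain ⟨_, hb2⟩ := Submodule.mem_inf.1 hb
  refine eq_zero_of_perp hs h2 hb2 fun y => ?_
  obtain ⟨k, hk, hk2⟩ := hinv (-y)
  have h3 := eq_S hs hk2
  have h4 := (Submodule.mem_inf.1 hk).1 _ (Submodule.mem_span_singleton_self (V hs h2 0))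
  rw [h3, real_inner_comm, inner_S, sub_neg_eq_add, zero_add] at h4
  exact h4

end

end Pool.Agent.Helper33.Ip
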