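import Pool.Agent.Helper26.Ip.Tools
import Pool.Agent.Helper41.Ip.CH
import Pool.Agent.Helper88.Ip.Cst

/-!
# Package GAUSS
-/

set_option autoImplicit false
set_option linter.unusedSectionVars false
open MeasureTheory Filter Topology ProbabilityTheory
open scoped ContDiff ENNReal InnerProductSpace

namespace Pool.Agent.Helper33.Ip

open Pool.Agent.N661.BR (MW J0 IsStationary shift meas_eval meas_shift IsGaussianLaw lin meas_lin)
open Pool.Agent.Helper37.BC
open Pool.Agent.Helper26.Ip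
open Complex (I)

noncomputable section

variable {μ : Measure MW} [IsProbabilityMeasure μ]

theorem int_comp {F : Type*} [NormedAddCommGroup F] [NormedSpace ℝ F] (hs : IsStationary μ)
    (x : ℂ) {Φ : MW → F} (hΦ : AEStronglyMeasurable Φ μ) :
    ∫ f, Φ (shift x f) ∂μ = ∫ f, Φ f ∂μ := by
  conv_rhs => rw [← hs x]
  rw [integral_map (meas_shift x).aemeasurable (by rwa [hs x])]

/-- G1 -/
theorem S_ch (hs : IsStationary μ) (x : ℂ) (g : Lp ℝ 2 μ) : ch (S hs x g) = ch g := by
  unfold ch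
  have h1 : ∫ f, Complex.exp (I * (((S hs x g) f : ℝ) : ℂ)) ∂μ =
      ∫ f, Complex.exp (I * ((g (shift x f) : ℝ) : ℂ)) ∂μ := by
    refine integral_congr_ae ?_
    filter_upwards [S_coe hs x g] with f hf
    rw [hf]
  rw [h1]
  exact int_comp hs x (Pool.Agent.Helper41.Ip.meas_exp g)

/-- G2 -/
theorem S_ex (hs : IsStationary μ) (x : ℂ) (g k : Lp ℝ 2 μ) :
    ex (S hs x g) (S hs x k) = ex g k := by
  unfold ex
  have h1 : ∫ f, ((S hs x k) f : ℂ) * Complex.exp (I * (((S hs x g) f : ℝ) : ℂ)) ∂μ =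
      ∫ f, (k f : ℂ) * Complex.exp (I * ((g f : ℝ) : ℂ)) ∂μ := by
    rw [← int_comp hs x (Pool.Agent.Helper41.Ip.meas_kexp k g)]
    refine integral_congr_ae ?_
    filter_upwards [S_coe hs x g, S_coe hs x k] with f hf hk
    rw [hf, hk]
  have h2 : ∫ f, (S hs x k) f * (S hs x g) f ∂μ = ∫ f, k f * g f ∂μ := by
    rw [← int_comp hs x (Pool.Agent.Helper41.Ip.int_mul k g).1]
    refine integral_congr_ae ?_
    filter_upwards [S_coe hs x g, S_coe hs x k] with f hf hk
    rw [hf, hk]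
  rw [h1, h2, S_ch]

/-- the constant function `1` -/
def One (μ : Measure MW) [IsProbabilityMeasure μ] : Lp ℝ 2 μ :=
  (memLp_const (1:ℝ) : MemLp (fun _ : MW => (1:ℝ)) 2 μ).toLp _

theorem inner_One (g : Lp ℝ 2 μ) : ⟪One μ, g⟫_ℝ = ∫ f, g f ∂μ := by
  rw [L2.inner_def]
  refine integral_congr_ae ?_
  filter_upwards [MemLp.coeFn_toLp (memLp_const (1:ℝ) : MemLp (fun _ : MW => (1:ℝ)) 2 μ)] with f hf
  unfold One
  rw [hf]
  show g f * 1 = g f
  rw [mul_one]

/-- G3 -/
theorem mean_values (hs : IsStationary μ) (h2 : Integrable (fun f : MW => f 0 ^ 2) μ)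
    {g : Lp ℝ 2 μ} (hg : g ∈ values μ) : ∫ f, g f ∂μ = 0 := by
  have h1 : ∀ y, ⟪One μ, V hs h2 y⟫_ℝ = ∫ f : MW, f 0 ∂μ := by
    intro y
    rw [inner_One, integral_congr_ae (V_coe hs h2 y),
      ← int_shift hs (F := fun f : MW => f 0) (meas_eval 0) y]
    refine integral_congr_ae (Eventually.of_forall fun f => ?_)
    show f y = (shift y f) 0
    rw [shift_apply, zero_add]
  have h3 := Pool.Agent.Helper88.Ip.const_inner_zero hs h2 h1
  rw [h3] at h1
  rw [← inner_One]
  refine values_induction hs h2 (p := fun g => ⟪One μ, g⟫_ℝ = 0) ?_ h1 ?_ ?_ ?_ hg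
  · exact isClosed_eq (by fun_prop) continuous_const
  · exact inner_zero_right _
  · intro g k hg hk
    rw [inner_add_right, hg, hk, add_zero]
  · intro t g hg
    rw [inner_smul_right, hg, mul_zero]

/-- finite linear combinations of values -/
theorem comb_coe (hs : IsStationary μ) (h2 : Integrable (fun f : MW => f 0 ^ 2) μ) {k : ℕ}
    (w : Fin k → ℂ) (t : Fin k → ℝ) :
    (∑ j, t j • V hs h2 (w j) : Lp ℝ 2 μ) =ᵐ[μ] lin w t := by
  refine (Lp.coeFn_fun_finsetSum Finset.univ fun j => t j • V hs h2 (w j)).trans ?_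
  have h1 : ∀ j, ∀ᵐ f ∂μ, (t j • V hs h2 (w j) : Lp ℝ 2 μ) f = t j * f (w j) := by
    intro j
    filter_upwards [Lp.coeFn_smul (t j) (V hs h2 (w j)), V_coe hs h2 (w j)] with f h3 h4
    rw [h3, Pi.smul_apply, h4, smul_eq_mul]
  filter_upwards [ae_all_iff.2 h1] with f hf
  unfold lin
  exact Finset.sum_congr rfl fun j _ => hf j

theorem ex_comb (hs : IsStationary μ) (h2 : Integrable (fun f : MW => f 0 ^ 2) μ) {k : ℕ}
    (w : Fin k → ℂ) (t : Fin k → ℝ) (y : ℂ) :
    excess μ w t y = ex (∑ j, t j • V hs h2 (w j)) (V hs h2 y) := by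
  unfold excess ex ch
  have hc := comb_coe hs h2 w t
  have hv := V_coe hs h2 y
  congr 1
  · refine integral_congr_ae ?_
    filter_upwards [hc, hv] with f h3 h4
    rw [h3, h4]
  · congr 1
    · congr 2
      refine integral_congr_ae ?_
      filter_upwards [hc, hv] with f h3 h4
      rw [h3, h4]
    · refine integral_congr_ae ?_
      filter_upwards [hc] with f h3
      rw [h3]

/-- G4 -/
theorem gauss_of_ex (hs : IsStationary μ) (h2 : Integrable (fun f : MW => f 0 ^ 2) μ)
    (h : ∀ c ∈ values μ, ∀ k ∈ values μ, ex c k = 0) : IsGaussianLaw μ := by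
  rw [gaussian_iff hs h2]
  intro k w t ε hε
  refine Eventually.frequently ?_
  filter_upwards [eventually_ge_atTop 0] with R hR
  have h1 : ∀ y, excess μ w t y = 0 := fun y => by
    rw [ex_comb hs h2]
    exact h _ (Submodule.sum_mem _ fun j _ => Submodule.smul_mem _ _ (V_mem hs h2 _)) _
      (V_mem hs h2 y)
  simp only [h1, norm_zero]
  simp
  positivity

/-- G5 -/
theorem ch_gauss (hs : IsStationary μ) (h2 : Integrable (fun f : MW => f 0 ^ 2) μ)
    (hG : IsGaussianLaw μ) {c : Lp ℝ 2 μ} (hc : c ∈ values μ) :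
    ch c = Complex.exp (-((‖c‖ ^ 2 / 2 : ℝ) : ℂ)) := by
  have hcl : IsClosed {c : Lp ℝ 2 μ | ch c = Complex.exp (-((‖c‖ ^ 2 / 2 : ℝ) : ℂ))} := by
    refine isClosed_eq Pool.Agent.Helper41.Ip.ch_cont ?_
    fun_prop
  have hspan : ∀ g ∈ Submodule.span ℝ (Set.range (V hs h2)),
      ch g = Complex.exp (-((‖g‖ ^ 2 / 2 : ℝ) : ℂ)) := by
    intro g hg
    obtain ⟨n, t, z, rfl⟩ := Submodule.mem_span_set'.1 hg
    choose w hw using fun j => (z j).2
    have h1 : (∑ j, t j • ((z j : Set.range (V hs h2)) : Lp ℝ 2 μ)) =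
        ∑ j, t j • V hs h2 (w j) :=
      Finset.sum_congr rfl fun j _ => by rw [hw j]
    rw [h1]
    have hc := comb_coe hs h2 w t
    have h3 := hG n w t
    have h4 : ch (∑ j, t j • V hs h2 (w j)) = charFun (μ.map (lin w t)) 1 := by
      rw [charFun_apply_real, integral_map (meas_lin w t).aemeasurable (by fun_prop)]
      unfold ch
      refine integral_congr_ae ?_
      filter_upwards [hc] with f h5
      rw [h5]
      congr 1
      push_cast
      ring
    have h5 : ‖∑ j, t j • V hs h2 (w j)‖ ^ 2 = ∫ f, lin w t f ^ 2 ∂μ := by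
      rw [← real_inner_self_eq_norm_sq, L2.inner_def]
      refine integral_congr_ae ?_
      filter_upwards [hc] with f h5
      rw [h5]
      show lin w t f * lin w t f = _
      ring
    rw [h4, h3, charFun_gaussianReal, h5,
      Real.coe_toNNReal _ (integral_nonneg fun f => sq_nonneg _)]
    congr 1
    push_cast
    ring
  rw [values_eq hs h2] at hc
  have hsub : ((Submodule.span ℝ (Set.range (V hs h2)) : Submodule ℝ (Lp ℝ 2 μ)) :
      Set (Lp ℝ 2 μ)) ⊆ {c : Lp ℝ 2 μ | ch c = Complex.exp (-((‖c‖ ^ 2 / 2 : ℝ) : ℂ))} := hspan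
  exact (hcl.closure_subset_iff.2 hsub) hc

end

end Pool.Agent.Helper33.Ip
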